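import Pool.Agent.Lib.MP_79902f_lc.Code

/-!
The rigid base configuration again, now recording that the change of coordinates is an injective
continuous affine map.
-/

namespace Pool.Agent.FS.ExpSides

open Set Pool.Agent.Lib.MP_79902f_lc

theorem force_aff {N P : BL → Set (ℝ × ℝ)} (cN : ∀ i, Convex ℝ (N i))
    (cP : ∀ i, Convex ℝ (P i)) (hA : ∀ z, ∃ z', Match N P z z') (hB : ∀ z', ∃ z, Match N P z z') :
    ∃ φ : ℝ × ℝ → ℝ × ℝ, Continuous φ ∧ Function.Injective φ ∧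
      (∀ (w w' : ℝ × ℝ) (s t : ℝ), s + t = 1 → φ (s • w + t • w') = s • φ w + t • φ w') ∧
      ∀ i, Sp (φ ⁻¹' N i) (φ ⁻¹' P i) i.f := by
  have hc : ∀ i w, w ∈ P i ↔ w ∉ N i := by
    intro i w
    obtain ⟨z', h⟩ := hA w
    rw [(h i).1, (h i).2, not_lt]
  have ex : ∀ i : BL, ∀ z₁ z₂ : ℝ × ℝ, i.f z₁ < 0 → 0 ≤ i.f z₂ →
      ∃ a b c : ℝ, (a ≠ 0 ∨ b ≠ 0) ∧ Sp (N i) (P i) (fun w => a * w.1 + b * w.2 + c) := by
    intro i z₁ z₂ h1 h2
    obtain ⟨w₁, k1⟩ := hB z₁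
    obtain ⟨w₂, k2⟩ := hB z₂
    exact exists_sp (cN i) (cP i) (hc i) ⟨w₁, (k1 i).1.2 h1⟩ ⟨w₂, (k2 i).2.2 h2⟩
  have le0 : ∀ {i : BL} {g : ℝ × ℝ → ℝ}, Sp (N i) (P i) g → ∀ w, (w ∈ N i → g w ≤ 0) ∧
      (w ∈ P i → 0 ≤ g w) := by
    intro i g hs w
    refine ⟨fun hw => ?_, fun hw => ?_⟩
    · by_contra hn
      exact (hc i w).1 ((hs w).2 (not_le.1 hn)) hw
    · by_contra hn
      exact (hc i w).1 hw ((hs w).1 (not_le.1 hn))
  obtain ⟨a1, b1, c1, n1, s1⟩ := ex (.h true) (-2, 0) (0, 0) (by norm_num [BL.f]) (by simp [BL.f])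
  obtain ⟨a2, b2, c2, n2, s2⟩ := ex (.h false) (-2, 0) (0, 0) (by simp [BL.f]) (by simp [BL.f])
  obtain ⟨a3, b3, c3, n3, s3⟩ := ex (.g 0) (0, 0) (0, 37) (by simp [BL.f]) (by norm_num [BL.f])
  obtain ⟨a4, b4, c4, n4, s4⟩ := ex (.g 1) (0, 0) (0, 37) (by norm_num [BL.f]) (by norm_num [BL.f])
  obtain ⟨l, e, lp, e0, ea, eb, ec⟩ := par_of n1 n2 (c := c1) (c' := c2) (fun w hw => by
    obtain ⟨z', h⟩ := hA w
    have := (h _).1.1 ((s1 w).1 hw)
    refine (le0 s2 w).1 ((h _).1.2 ?_)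
    simp [BL.f] at this ⊢
    linarith)
  obtain ⟨m, f, mp, f0, fa, fb, fc⟩ := par_of n3 n4 (c := c3) (c' := c4) (fun w hw => by
    obtain ⟨z', h⟩ := hA w
    have := (h _).1.1 ((s3 w).1 hw)
    refine (le0 s4 w).1 ((h _).1.2 ?_)
    simp [BL.f] at this ⊢
    linarith)
  have ep : 0 < e := by
    refine lt_of_le_of_ne e0 fun h0 => ?_
    obtain ⟨z₁, h₁⟩ := hB (-1 / 4, 75 / 2)
    obtain ⟨z₂, h₂⟩ := hB (-1 / 10, 73 / 2)
    obtain ⟨z₃, h₃⟩ := hB (-9 / 10, 73 / 2)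
    have on : ∀ z z', Match N P z z' → -1 ≤ z'.1 → z'.1 < 0 → a1 * z.1 + b1 * z.2 + c1 = 0 := by
      intro z z' h k1 k2
      have t1 := (le0 s1 z).2 ((h _).2.2 (by simp [BL.f]; linarith))
      have t2 := (le0 s2 z).1 ((h _).1.2 (by simp [BL.f]; linarith))
      rw [ea, eb, ec, ← h0] at t2
      nlinarith
    refine not_collinear n1 (cN (.g 1)) (cP (.d 0)) (cP (.l 0)) ?_ ?_ ?_ ?_ ?_ ?_ ?_ ?_ ?_
      (on _ _ h₁ (by norm_num) (by norm_num)) (on _ _ h₂ (by norm_num) (by norm_num))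
      (on _ _ h₃ (by norm_num) (by norm_num)) <;>
      simp only [(h₁ _).1, (h₂ _).1, (h₃ _).1, (h₁ _).2, (h₂ _).2, (h₃ _).2] <;>
      norm_num [BL.f, lin]
  have fp : 0 < f := by
    refine lt_of_le_of_ne f0 fun h0 => ?_
    obtain ⟨z₁, h₁⟩ := hB (-2, 73 / 2)
    obtain ⟨z₂, h₂⟩ := hB (-1 / 3, 361 / 10)
    obtain ⟨z₃, h₃⟩ := hB (-1 / 3, 369 / 10)
    have on : ∀ z z', Match N P z z' → 36 ≤ z'.2 → z'.2 < 37 → a3 * z.1 + b3 * z.2 + c3 = 0 := by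
      intro z z' h k1 k2
      have t1 := (le0 s3 z).2 ((h _).2.2 (by simp [BL.f]; linarith))
      have t2 := (le0 s4 z).1 ((h _).1.2 (by simp [BL.f]; linarith))
      rw [fa, fb, fc, ← h0] at t2
      nlinarith
    refine not_collinear n3 (cP (.h true)) (cP (.d 0)) (cN (.l 0)) ?_ ?_ ?_ ?_ ?_ ?_ ?_ ?_ ?_
      (on _ _ h₁ (by norm_num) (by norm_num)) (on _ _ h₂ (by norm_num) (by norm_num))
      (on _ _ h₃ (by norm_num) (by norm_num)) <;>
      simp only [(h₁ _).1, (h₂ _).1, (h₃ _).1, (h₁ _).2, (h₂ _).2, (h₃ _).2] <;>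
      norm_num [BL.f, lin]
  have hdet : a1 * b3 - b1 * a3 ≠ 0 := by
    intro hd
    have pt : ∀ x y : ℝ, ∃ z : ℝ × ℝ, (x < -1 → a1 * z.1 + b1 * z.2 + c1 ≤ 0) ∧
        (0 ≤ x → e ≤ l * (a1 * z.1 + b1 * z.2 + c1)) ∧ (y < 36 → a3 * z.1 + b3 * z.2 + c3 ≤ 0) ∧
        (36 ≤ y → 0 ≤ a3 * z.1 + b3 * z.2 + c3) := by
      intro x y
      obtain ⟨z, h⟩ := hB (x, y)
      refine ⟨z, fun k => (le0 s1 z).1 ((h _).1.2 (by simp [BL.f]; linarith)), fun k => ?_,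
        fun k => (le0 s3 z).1 ((h _).1.2 (by simp [BL.f]; linarith)),
        fun k => (le0 s3 z).2 ((h _).2.2 (by simp [BL.f]; linarith))⟩
      have t2 := (le0 s2 z).2 ((h _).2.2 (by simp [BL.f]; linarith))
      rw [ea, eb, ec] at t2
      linarith
    obtain ⟨z₁, -, t1, t2, -⟩ := pt 0 0
    obtain ⟨z₂, t3, -, -, t4⟩ := pt (-2) 36
    obtain ⟨z₃, -, t5, -, t6⟩ := pt 0 36
    obtain ⟨z₄, t7, -, t8, -⟩ := pt (-2) 0
    replace t1 := t1 le_rfl
    replace t2 := t2 (by norm_num)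
    replace t3 := t3 (by norm_num)
    replace t4 := t4 le_rfl
    replace t5 := t5 le_rfl
    replace t6 := t6 le_rfl
    replace t7 := t7 (by norm_num)
    replace t8 := t8 (by norm_num)
    have u1 : 0 < a1 * z₁.1 + b1 * z₁.2 + c1 := by nlinarith
    have u5 : 0 < a1 * z₃.1 + b1 * z₃.2 + c1 := by nlinarith
    have hn : 0 < a3 ^ 2 + b3 ^ 2 := by
      rcases n3 with h | h <;> positivity
    set k := (a1 * a3 + b1 * b3) / (a3 ^ 2 + b3 ^ 2) with hk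
    have ka : a1 = k * a3 := by
      rw [hk]; field_simp; linear_combination b3 * hd
    have kb : b1 = k * b3 := by
      rw [hk]; field_simp; linear_combination (-a3) * hd
    rw [ka, kb] at u1 u5 t3 t7
    rcases le_total 0 k with k0 | k0 <;> nlinarith
  obtain ⟨D, hD⟩ : ∃ D, D * (a1 * b3 - b1 * a3) = 1 := ⟨_, inv_mul_cancel₀ hdet⟩
  let φ : ℝ × ℝ → ℝ × ℝ := fun w =>
    ((b3 * (e / l * (w.1 + 1) - c1) - b1 * (f / m * (w.2 - 36) - c3)) * D,
      (a1 * (f / m * (w.2 - 36) - c3) - a3 * (e / l * (w.1 + 1) - c1)) * D)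
  have q1 : ∀ w, a1 * (φ w).1 + b1 * (φ w).2 + c1 = e / l * (w.1 + 1) := by
    intro w; simp only [φ]; linear_combination (e / l * (w.1 + 1) - c1) * hD
  have q3 : ∀ w, a3 * (φ w).1 + b3 * (φ w).2 + c3 = f / m * (w.2 - 36) := by
    intro w; simp only [φ]; linear_combination (f / m * (w.2 - 36) - c3) * hD
  have q2 : ∀ w, a2 * (φ w).1 + b2 * (φ w).2 + c2 = e * w.1 := by
    intro w
    have : l * (e / l * (w.1 + 1)) = e * (w.1 + 1) := by field_simp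
    rw [ea, eb, ec]
    linear_combination l * q1 w + this
  have q4 : ∀ w, a4 * (φ w).1 + b4 * (φ w).2 + c4 = f * (w.2 - 37) := by
    intro w
    have : m * (f / m * (w.2 - 36)) = f * (w.2 - 36) := by field_simp
    rw [fa, fb, fc]
    linear_combination m * q3 w + this
  have af : ∀ (w w' : ℝ × ℝ) (s t : ℝ), s + t = 1 → φ (s • w + t • w') = s • φ w + t • φ w' := by
    intro w w' s t hst
    obtain rfl : t = 1 - s := by linarith
    ext <;> simp only [φ, Prod.fst_add, Prod.snd_add, Prod.smul_fst, Prod.smul_snd,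
      smul_eq_mul] <;> ring
  have cv : ∀ S : Set (ℝ × ℝ), Convex ℝ S → Convex ℝ (φ ⁻¹' S) := by
    intro S hS w hw w' hw' s t hs ht hst
    rw [mem_preimage, af _ _ _ _ hst]
    exact hS hw hw' hs ht hst
  let χ : ℝ × ℝ → ℝ × ℝ := fun z =>
    (l / e * (a1 * z.1 + b1 * z.2 + c1) - 1, m / f * (a3 * z.1 + b3 * z.2 + c3) + 36)
  have li : Function.LeftInverse φ χ := by
    intro z
    have i1 : e / l * (l / e * (a1 * z.1 + b1 * z.2 + c1) - 1 + 1) = a1 * z.1 + b1 * z.2 + c1 := by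
      field_simp; ring
    have i2 : f / m * (m / f * (a3 * z.1 + b3 * z.2 + c3) + 36 - 36) = a3 * z.1 + b3 * z.2 + c3 := by
      field_simp; ring
    ext <;> simp only [φ, χ, i1, i2]
    · linear_combination z.1 * hD
    · linear_combination z.2 * hD
  have ri : Function.RightInverse φ χ := by
    intro w
    ext <;> simp only [χ, q1, q3] <;> field_simp <;> ring
  have sj : Function.Surjective φ := li.surjective
  have co : Continuous φ := by fun_prop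
  have el : 0 < e / l := by positivity
  have fm : 0 < f / m := by positivity
  refine ⟨φ, co, ri.injective, af, force_normal (fun i => cv _ (cN i)) (fun i => cv _ (cP i)) (fun z => hA (φ z))
    (fun z' => ?_) (fun w => ⟨fun h => (s2 _).1 ?_, fun h => (s2 _).2 ?_⟩)
    (fun w => ⟨fun h => (s1 _).1 ?_, fun h => (s1 _).2 ?_⟩)
    (fun w => ⟨fun h => (s3 _).1 ?_, fun h => (s3 _).2 ?_⟩)
    (fun w => ⟨fun h => (s4 _).1 ?_, fun h => (s4 _).2 ?_⟩)⟩
  · obtain ⟨z, h⟩ := hB z'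
    obtain ⟨w, rfl⟩ := sj z
    exact ⟨w, h⟩
  all_goals
    simp only [q1, q2, q3, q4]
    simp [BL.f] at h
    nlinarith

end Pool.Agent.FS.ExpSides
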