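import Pool.Agent.FS.ExpSides.Force

/-!
In every convex realization of the code the sets of a late generation have exponentially many
edges.
-/

namespace Pool.Agent.FS.ExpSides

open Set Pool.Agent.Lib.MP_79902f_lc

variable {A : Type} {n : ℕ} {H : A → A → Prop} {B : Fin 3 → ℕ → A → Prop}

theorem pin_normal {Y : Neu A → Set (ℝ × ℝ)} (cY : ∀ a, Convex ℝ (Y a))
    (hY : ∀ z, InCode n H B (fun a => z ∈ Y a))
    (hp : ∀ i : BL, Sp (Y (.inl (i, false))) (Y (.inl (i, true))) i.f) :
    ∀ t, t < n → CellPin (fun m => {w : ℝ × ℝ | (w.1 / 2 ^ t, w.2 / 4 ^ t) ∈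
      Y (.inr (t, .inl (cls m)))}) (42 * 2 ^ t - 42) (46 * 2 ^ t + 42) := by
  classical
  have step : ∀ z t j, t + 1 < n →
      StepAt (xs (fun a => z ∈ Y a) t) (xs (fun a => z ∈ Y a) (t + 1)) j := by
    intro z t j ht
    rcases hY z with ⟨z', h1, h2⟩ | ⟨r, h⟩
    · have e : ∀ t, xs (pat0 z' : Neu A → Prop) t = fun m => om z'.1 < z'.2 ∧ Per (sc t z') m :=
        fun t => funext fun m => propext (xs_pat0 h1 t m)
      rw [h2, e, e, sc_succ]
      exact step_and (step_per _ j)
    · exact (h.2.2.2 t (by omega) j).1 ht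
  let F : ℕ → ℤ → Set (ℝ × ℝ) := fun t m =>
    {w : ℝ × ℝ | (w.1 / 2 ^ t, w.2 / 4 ^ t) ∈ Y (.inr (t, .inl (cls m)))}
  have pin : ∀ t, t < n → CellPin (F t) (42 * 2 ^ t - 42) (46 * 2 ^ t + 42) := by
    intro t
    induction t with
    | zero =>
      intro _ α β h1 h2 h3 h4 z ⟨z1, z2, z3, z4⟩
      have tr : ∀ m : ℤ, 0 ≤ m → m ≤ 88 → ∃ k : Fin 89, ∀ w, (BL.l k).f w = w.2 - lin (2 * m + 1) w.1 := by
        intro m h0 h1
        refine ⟨⟨m.toNat, by omega⟩, fun w => ?_⟩
        have : ((m.toNat : ℕ) : ℝ) = (m : ℝ) := by exact_mod_cast Int.toNat_of_nonneg h0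
        simp only [BL.f, this]
      obtain ⟨k1, e1⟩ := tr (α - 1) (by omega) (by omega)
      obtain ⟨k2, e2⟩ := tr α (by omega) (by omega)
      obtain ⟨k3, e3⟩ := tr β (by omega) (by omega)
      obtain ⟨k4, e4⟩ := tr (β + 1) (by omega) (by omega)
      have y1 := (hp (.l k1) z).1 (by rw [e1]; exact sub_neg.2 z1)
      have y2 := (hp (.l k2) z).2 (by rw [e2]; exact sub_pos.2 z2)
      have y3 := (hp (.l k3) z).2 (by rw [e3]; exact sub_pos.2 z3)
      have y4 := (hp (.l k4) z).1 (by rw [e4]; exact sub_neg.2 z4)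
      rcases hY z with ⟨z', a1, a2⟩ | ⟨r, h⟩
      · have g : ∀ a, z ∈ Y a ↔ pat0 z' a := fun a => (congrFun a2 a).to_iff
        rw [g] at y1 y2 y3 y4
        simp only [pat0, e1, e2, e3, e4, if_true, Bool.false_eq_true, if_false, sub_neg,
          sub_nonneg] at y1 y2 y3 y4
        have hc : HC α β z' := ⟨y1, not_lt.2 y2, not_lt.2 y3, y4⟩
        have ho : om z'.1 < z'.2 := by
          obtain ⟨p, q, rfl, b1, b2, b3, b4⟩ := hc.param h3
          have c1 : (1 : ℝ) ≤ α := by exact_mod_cast (show 1 ≤ α by omega)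
          have c2 : (β : ℝ) ≤ 87 := by exact_mod_cast (show β ≤ 87 by omega)
          have c3 : (α : ℝ) ≤ β := by exact_mod_cast h3
          have c4 : 2 < (p + q) / 2 := by linarith
          have c5 : (p + q) / 2 < 176 := by linarith
          simp only [om, cr]
          nlinarith [sq_nonneg (p - q)]
        have : (fun m => z ∈ F 0 m) = Per z' := by
          funext m
          have := xs_pat0 (A := A) a1 0 m
          rw [sc_zero, ← a2] at this
          simpa [F, xs, ho] using this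
        rw [this]
        exact hc.win (by omega)
      · exact absurd ((h.1 _ _).1 y2) (by simp [side])
    | succ t ih =>
      intro ht
      have := cellPin_step (F := F t) (G := F (t + 1)) (fun m => convex_sc (cY _) _)
        (fun m => by
          have : cls (m + 22) = cls m := by simp [cls]
          simp only [F, this])
        (fun z j => by
          have e : ((psi z).1 / 2 ^ (t + 1), (psi z).2 / 4 ^ (t + 1))
              = (z.1 / 2 ^ t, z.2 / 4 ^ t) := by
            ext <;> simp only [psi, pow_succ] <;> field_simp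
          simp only [F, mem_ofPred_eq, e]
          exact step _ t j ht) (ih (by omega))
      convert this using 1 <;> ring
  exact pin

theorem pin_all {Y : Neu A → Set (ℝ × ℝ)} (cY : ∀ a, Convex ℝ (Y a))
    (hY : ∀ σ, InCode n H B σ ↔ ∃ z, σ = fun a => z ∈ Y a) {t : ℕ} (htn : t < n) :
    ∃ Φ : ℝ × ℝ → ℝ × ℝ, Continuous Φ ∧ Function.Injective Φ ∧
      (∀ (w w' : ℝ × ℝ) (s t : ℝ), s + t = 1 → Φ (s • w + t • w') = s • Φ w + t • Φ w') ∧
      CellPin (fun m => Φ ⁻¹' Y (.inr (t, .inl (cls m)))) (42 * 2 ^ t - 42) (46 * 2 ^ t + 42) := by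
  have hY' : ∀ z, InCode n H B (fun a => z ∈ Y a) := fun z => (hY _).2 ⟨z, rfl⟩
  have act : ∀ r : Fin 3, ∃ z : ℝ × ℝ, Act z ∧ reg z.1 = r := by
    intro r
    refine ⟨(85 + 5 / 2 * (r : ℕ), -10000), ⟨by positivity, fun k => ?_⟩, ?_⟩
    · have hr : ((r : ℕ) : ℝ) ≤ 2 := by exact_mod_cast (show (r : ℕ) ≤ 2 by omega)
      have h0 : (0 : ℝ) ≤ (r : ℕ) := Nat.cast_nonneg _
      have h6 := bel_of_lt (z := (85 + 5 / 2 * (r : ℕ), -10000)) (by simp only [ht]; nlinarith) (k : ℕ)
      simp only [Bel, BL.f] at h6 ⊢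
      push_cast at h6
      linarith
    · fin_cases r <;> norm_num [reg]
      rfl
  obtain ⟨φ, co, ij, af, hφ⟩ := force_aff (N := fun i => Y (.inl (i, false))) (P := fun i => Y (.inl (i, true)))
    (fun i => cY _) (fun i => cY _) (fun z => by
      rcases hY' z with ⟨z', -, a2⟩ | ⟨r, h⟩
      · have g : ∀ a, z ∈ Y a ↔ pat0 z' a := fun a => (congrFun a2 a).to_iff
        exact ⟨z', fun i => by simp [g, pat0]⟩
      · obtain ⟨z', a1, rfl⟩ := act r
        exact ⟨z', fun i => ⟨(h.1 _ _).trans (side_reg a1 i false).symm,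
          (h.1 _ _).trans (side_reg a1 i true).symm⟩⟩) (fun z' => by
      by_cases h : Act z'
      · obtain ⟨z, hz⟩ := (hY (Sum.elim (fun p => p.2 = side (reg z'.1) p.1) fun _ => False)).1
          (Or.inr ⟨reg z'.1, varPat_empty n H B _ (fun i b => Iff.rfl) (fun p => id)⟩)
        exact ⟨z, fun i => ⟨(congrFun hz (.inl (i, false))).symm.to_iff.trans
          (side_reg h i false).symm, (congrFun hz (.inl (i, true))).symm.to_iff.trans
          (side_reg h i true).symm⟩⟩
      · obtain ⟨z, hz⟩ := (hY (pat0 z')).1 (Or.inl ⟨z', h, rfl⟩)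
        have g : ∀ a, z ∈ Y a ↔ pat0 z' a := fun a => (congrFun hz a).symm.to_iff
        exact ⟨z, fun i => by simp [g, pat0]⟩)
  have cv : ∀ S : Set (ℝ × ℝ), Convex ℝ S → Convex ℝ (φ ⁻¹' S) := by
    intro S hS w hw w' hw' s t hs ht hst
    rw [mem_preimage, af _ _ _ _ hst]
    exact hS hw hw' hs ht hst
  refine ⟨fun w => φ (w.1 / 2 ^ t, w.2 / 4 ^ t), co.comp (by fun_prop), fun w w' e => ?_,
    fun w w' a b hab => ?_,
    pin_normal (Y := fun a => φ ⁻¹' Y a) (fun a => cv _ (cY a)) (fun z => hY' (φ z)) hφ t htn⟩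
  · have := ij e
    simp only [Prod.mk.injEq] at this
    ext
    · exact (div_left_inj' (by positivity)).1 this.1
    · exact (div_left_inj' (by positivity)).1 this.2
  · dsimp only
    rw [← af _ _ _ _ hab]
    congr 1
    ext <;> simp only [Prod.fst_add, Prod.snd_add, Prod.smul_fst, Prod.smul_snd, smul_eq_mul] <;>
      ring

theorem cr_comb (p q q' a b : ℝ) (h : a + b = 1) :
    a • cr p q + b • cr p q' = cr p (a * q + b * q') := by
  obtain rfl : b = 1 - a := by linarith
  ext <;> simp only [cr, Prod.fst_add, Prod.snd_add, Prod.smul_fst, Prod.smul_snd, smul_eq_mul] <;>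
    ring

theorem many_edges {Y : Neu A → Set (ℝ × ℝ)} (cY : ∀ a, Convex ℝ (Y a))
    (hY : ∀ σ, InCode n H B σ ↔ ∃ z, σ = fun a => z ∈ Y a) {s : ℕ} (hs : s + 4 < n) :
    ∃ a b : Fin (2 ^ s) → ℝ × ℝ, (∀ k, a k ≠ b k) ∧
      (∀ k, segment ℝ (a k) (b k) ⊆ frontier (Y (.inr (s + 4, .inl (cls 0))))) ∧
      Function.Injective fun k => affineSpan ℝ {a k, b k} := by
  obtain ⟨Φ, co, ij, af, pin⟩ := pin_all cY hY hs
  set X := Y (.inr (s + 4, .inl (cls 0))) with hX
  let α : Fin (2 ^ s) → ℤ := fun k => 22 * (32 * 2 ^ s + (k : ℕ))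
  have cα : ∀ k, cls (α k) = cls 0 := fun k => by
    ext; simp only [cls, α]; omega
  have bd : ∀ k, 42 * 2 ^ (s + 4) - 42 < α k ∧ α k + 1 < 46 * 2 ^ (s + 4) + 42 := by
    intro k
    have k1 : ((k : ℕ) : ℤ) < 2 ^ s := by exact_mod_cast k.2
    have k0 : (0 : ℤ) ≤ (k : ℕ) := Int.natCast_nonneg _
    have k2 : (0 : ℤ) < 2 ^ s := by positivity
    simp only [α, pow_add]
    constructor <;> nlinarith
  have fr : ∀ k (q : ℝ), 2 * α k + 3 ≤ q → q ≤ 2 * α k + 5 →
      Φ (cr (2 * α k + 1) q) ∈ frontier X := by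
    intro k q h1 h2
    rw [frontier_eq_closure_inter_closure]
    constructor
    · refine map_mem_closure co (cr_mem_closure (α := α k + 1) (β := α k + 1) le_rfl ?_ ?_ ?_ ?_)
        fun z hz => ?_
      any_goals (push_cast; linarith)
      have w := (pin _ _ (by linarith [(bd k).1]) (bd k).2 le_rfl (by linarith) z hz).1
      simp only [add_sub_cancel_right, cα] at w
      exact w
    · refine map_mem_closure co (cr_mem_closure (α := α k) (β := α k + 1) (by linarith) ?_ ?_ ?_ ?_)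
        fun z hz => ?_
      any_goals (push_cast; linarith)
      have w := (pin _ _ (bd k).1 (bd k).2 (by linarith) (by linarith) z hz).2.1
      simp only [cα] at w
      exact w
  refine ⟨fun k => Φ (cr (2 * α k + 1) (2 * α k + 3)), fun k => Φ (cr (2 * α k + 1) (2 * α k + 5)),
    fun k e => ?_, fun k => ?_, fun k l e => ?_⟩
  · have := congrArg Prod.fst (ij e)
    simp only [cr] at this
    linarith
  · rintro _ ⟨u, v, hu, hv, huv, rfl⟩
    dsimp only
    rw [← af _ _ _ _ huv, cr_comb _ _ _ _ _ huv]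
    obtain rfl : v = 1 - u := by linarith
    apply fr <;> linarith
  · dsimp only at e
    have m : Φ (cr (2 * α l + 1) (2 * α l + 3)) ∈ affineSpan ℝ
        {Φ (cr (2 * α k + 1) (2 * α k + 3)), Φ (cr (2 * α k + 1) (2 * α k + 5))} := by
      rw [e]; exact left_mem_affineSpan_pair _ _ _
    obtain ⟨r, hr⟩ := mem_affineSpan_pair_iff_exists_lineMap_eq.1 m
    rw [AffineMap.lineMap_apply_module, ← af _ _ _ _ (by ring), cr_comb _ _ _ _ _ (by ring)] at hr
    have e1 := congrArg Prod.fst (ij hr)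
    have e2 := congrArg Prod.snd (ij hr)
    simp only [cr] at e1 e2
    have e3 : ((α k : ℝ) - α l) * (α k - α l - 1) = 0 := by
      linear_combination (2 * α k + 1) / 2 * e1 + 1 / 4 * e2
    have e4 : (α k - α l) * (α k - α l - 1) = 0 := by exact_mod_cast e3
    ext
    simp only [α] at e4
    rcases mul_eq_zero.1 e4 with h | h <;> omega

end Pool.Agent.FS.ExpSides
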